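import Pool.Agent.H547R2.Final

/-!
# Non-monotone gates on average: negligible correlation without many changes

There are a monotone language `L` in `NP` and, for every length `n`, random chains
`X 0 ≤ X 1 ≤ ...` of negative instances and random positive instances `Y i ≥ X i`, sampled in
polynomial time, such that a circuit of polynomial size can accept `Y i` more often than
`X (i + 1)` only as often as the bits entering its non-monotone gates change between `X i` and
`X (i + 1)`, up to a negligible error.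
-/

namespace Pool.Agent.Results.MP_79d702_lc.AverageFlips

open Pool.Agent.NPC Pool.Agent.H547R2

theorem result : ∃ (L : Set (List Bool)) (m : ℕ → ℕ)
    (X Y : (n i : ℕ) → (Fin (n ^ 2) → Bool) → Fin n → Bool),
    InNP L ∧
    (∀ (n : ℕ) (x y : Fin n → Bool), x ≤ y → List.ofFn x ∈ L → List.ofFn y ∈ L) ∧
    Samplable X ∧ Samplable Y ∧
    (∀ (n i : ℕ) (w : Fin (n ^ 2) → Bool), X n i w ≤ X n (i + 1) w ∧ X n i w ≤ Y n i w ∧
      (i < m n → List.ofFn (Y n i w) ∈ L)) ∧
    (∀ c : ℕ, ∃ n₀ : ℕ, ∀ n ≥ n₀, n ≤ m n * Nat.log 2 n ^ 5 ∧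
      Pr (fun w => ∃ i, List.ofFn (X n i w) ∈ L) ≤ 1 / (n : ℝ) ^ c) ∧
    ∀ k c : ℕ, ∃ n₀ : ℕ, ∀ n ≥ n₀, ∀ C : Circuit n, C.size ≤ n ^ k + k →
      (∀ i < m n, Pr (fun w => C.eval (Y n i w) = true) ≤
        Pr (fun w => C.eval (X n (i + 1) w) = true)
          + Pr (fun w => C.Changes (X n i w) (X n (i + 1) w)) + 1 / (n : ℝ) ^ c) ∧
      ∑ i ∈ Finset.range (m n), Pr (fun w => C.Changes (X n i w) (X n (i + 1) w)) + 1
        ≤ C.freeProd := by
  refine ⟨Lang, mm, X, Y, inNP_lang, ?_, samplable_X, samplable_Y, ?_, ?_, ?_⟩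
  · intro n x y hxy hx
    exact lang_mono (fun p hp => Bool.le_iff_imp.1 (hxy p) hp) hx
  · intro n i w
    exact ⟨fun p => Bool.le_iff_imp.2 (X_le_succ n i w p),
      fun p => Bool.le_iff_imp.2 (X_le_Y n i w p), fun hi => Y_mem hi w⟩
  · intro c
    refine ⟨2 ^ 2 ^ (64 + c), fun n hn => ?_⟩
    have h := lam_ge (64 + c) n hn
    exact ⟨mm_ge (by omega), Pr_X_mem (by omega) (by omega)⟩
  · intro k c
    refine ⟨2 ^ 2 ^ (64 + 2 * (k + 1 + c)), fun n hn C hC => ?_⟩
    have h := lam_ge _ n hn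
    have hn2 : 2 ≤ n := by
      have h1 : 64 ≤ lam n := by omega
      have h2 := n_ge h1
      have h3 := ell_ge' h1
      have h4 : 2 ^ 1 ≤ 2 ^ Nat.log 2 n := Nat.pow_le_pow_right (by norm_num) (by omega)
      omega
    have hC' : C.size ≤ n ^ (k + 1) := by
      have h1 : k < 2 ^ k := Nat.lt_two_pow_self
      have h2 : 2 ^ k ≤ n ^ k := Nat.pow_le_pow_left hn2 k
      have h3 : n ^ k * 2 ≤ n ^ (k + 1) := by
        rw [pow_succ]
        exact Nat.mul_le_mul_left _ hn2
      omega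
    exact ⟨fun i hi => main_step (k := k + 1) (by omega) (by omega) C hC' hi,
      sum_changes C (mm n)⟩

end Pool.Agent.Results.MP_79d702_lc.AverageFlips
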