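import Pool.Agent.H630CD.Main
import Pool.Agent.H630CD.Up

/-!
# All NP-complete constraint languages are hard for circuits with few NOT gates

Let `D` be a finite set.  A constraint language over `D` is a family of relations on `D`; an instance
is a set of constraints, and the question is whether it is satisfiable.  By the dichotomy theorem of
Bulatov and Zhuk satisfiability for a finite language is in P if the language has a Siggers
polymorphism (`s(x,x,y,y,z,z) = s(y,z,x,z,x,y)`) and NP-complete otherwise.

(A) Here: if a language (finite or not) over `D` has no Siggers polymorphism then every family of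
circuits that decides satisfiability over `N` variables with advantage `ξ` contains a circuit of size
larger than `2 ^ (N ^ c)`, even if the gates are arbitrary nondecreasing functions of two real numbers
and further, arbitrary gates are allowed, the product of the numbers `w + 1` (`w` the number of wires
of the further gate) being at most `N ^ a`; for NOT gates this means `a * log2 N` of them.  Here
`a < 1` is arbitrary, `c` is any positive number smaller than `(1 - a) / 52`, and `N` has to be larger
than a number that depends only on `a`, `c`, `ξ` and `D`.

(B) Let `G` be a finite simple graph.  If `G` is bipartite then `G`-colourability (existence of a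
homomorphism to `G`) of the graphs on `n` vertices is decided by AND/OR circuits of polynomial size.
If `G` is not bipartite then the bound of (A) holds for the circuits that decide `G`-colourability of
the graphs on `N` vertices.  This is the dichotomy of Hell and Nesetril (1990) for such circuits.

Proof.  Loop lemma of Bulatov (2005): idempotent operations on a finite set that preserve the edges of
a graph with an odd cycle act as projections on a subset with two classes (`T1` helper611: powers of
the triangle; `T2` helper334: cubes; `T3` helper431, `T4` helper305, `T5` helper956, `T6` helper409: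
induction).  Applied to the ternary operations of the core of a language (`T7` helper228, `T11`
helper428) without Siggers polymorphism (`T8` helper166) it gives a set `B` in a power of the core on
which the idempotent polymorphisms act as projections.  Each equation with four variables over the
field with two elements is then expressed by a table of `|D| ^ 8` variables, which has to be a
polymorphism of arity eight (`Gad`).  The variables are divided into blocks of `N ^ ε` variables, and a
random walk through satisfied systems of equations changes few bits that enter the further gates; in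
the other steps the random parity theorem of `MP_b6562f_lc.RandomRefutation` (with helpers 35 55 92
221 409 488 575 793 797 837) applies (`Gen`).  Graphs: `T9` helper228, `T10` helper624.
-/

open scoped Classical
open Finset

namespace Pool.Agent.Results.MP_79d702_lc.ConstraintLanguages

open H630VC H630XR H630SD H630CD

theorem result :
    -- (A) languages without Siggers polymorphism need exponential size
    (∀ (D : Type) [Fintype D] (a c ξ : ℝ), 0 ≤ a → a < 1 → 0 < c → c < (1 - a) / 52 → 0 < ξ →
      ∃ N₀ : ℕ, ∀ N : ℕ, N₀ ≤ N → ∀ (ι : Type) (ar : ι → ℕ)
        (rel : ∀ i, Set (Fin (ar i) → D)), ¬ Siggers rel →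
        ∀ (R : Type) [Fintype R] [Nonempty R] (f : R → Set (Con ar (Fin N)) → ℝ)
          (l : R → List (Set (Con ar (Fin N)) → ℝ))
          (q : R → List (List ((Set (Con ar (Fin N)) → ℝ) × ℝ))),
          (∀ r, FProg (conInputs ar (Fin N)) (l r) (q r)) → (∀ r, f r ∈ l r) →
          H630CD.DecidesSat rel ξ f → (∀ r, (combos (q r) : ℝ) ≤ (N : ℝ) ^ a) →
          ∃ r, (2 : ℝ) ^ ((N : ℝ) ^ c) < (l r).length + wires (q r)) ∧
    -- (B) colouring by bipartite graphs is easy
    (∀ (V : Type) [Finite V] (G : SimpleGraph V), G.Colorable 2 →
      ∃ C : ℕ, ∀ n : ℕ, ∃ l : List (SimpleGraph (Fin n) → ℝ),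
        MProg (adjBits n) l ∧ l.length ≤ C * (n + 1) ^ C ∧
        (fun H => if Nonempty (H →g G) then (0 : ℝ) else 1) ∈ l) ∧
    -- colouring by other graphs needs exponential size
    (∀ (V : Type) [Fintype V] (a c ξ : ℝ), 0 ≤ a → a < 1 → 0 < c → c < (1 - a) / 52 → 0 < ξ →
      ∃ N₀ : ℕ, ∀ N : ℕ, N₀ ≤ N → ∀ G : SimpleGraph V, ¬ G.Colorable 2 →
        ∀ (R : Type) [Fintype R] [Nonempty R] (f : R → SimpleGraph (Fin N) → ℝ)
          (l : R → List (SimpleGraph (Fin N) → ℝ))
          (q : R → List (List ((SimpleGraph (Fin N) → ℝ) × ℝ))),
          (∀ r, FProg (adjInputs N) (l r) (q r)) → (∀ r, f r ∈ l r) →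
          DecidesHom G ξ f → (∀ r, (combos (q r) : ℝ) ≤ (N : ℝ) ^ a) →
          ∃ r, (2 : ℝ) ^ ((N : ℝ) ^ c) < (l r).length + wires (q r)) := by
  refine ⟨?_, ?_, ?_⟩
  · intro D _ a c ξ h1 h2 h3 h4 h5
    obtain ⟨N₀, hN₀⟩ := lower D a c ξ h1 h2 h3 h4 h5
    exact ⟨N₀, fun N hN ι ar rel hS R _ _ f l q hp hf hd hc =>
      hN₀ N hN ι ar rel (dec_data hS) (nonempty_of_not_siggers hS) R f l q hp hf hd hc⟩
  · intro V _ G hG
    exact upper_graph G hG
  · intro V _ a c ξ h1 h2 h3 h4 h5
    obtain ⟨N₀, hN₀⟩ := lower_graph V a c ξ h1 h2 h3 h4 h5
    refine ⟨N₀, fun N hN G hG R _ _ f l q hp hf hd hc => ?_⟩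
    have hS := graph_no_siggers G hG
    exact hN₀ N hN G (dec_data hS) (nonempty_of_not_siggers hS) R f l q hp hf hd hc

end Pool.Agent.Results.MP_79d702_lc.ConstraintLanguages
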