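import Pool.Agent.H547R2.Loc4

/-!
# Non-monotone gates must act on every small set of variables

There is a monotone language `L` in `NP` such that the bits entering the non-monotone gates of any
polynomial-size circuit for `L` change at every step of some chain of negative instances inside any
given set `U` of variables, of length at least the size of `U` divided by a power of `log n`. So
these gates cannot be made independent of any set of more than `(log n) ^ 6` variables.
-/

namespace Pool.Agent.Results.MP_79d702_lc.LocalFlips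

open Pool.Agent.NPC Pool.Agent.H547R2

theorem result : ∃ L : Set (List Bool), InNP L ∧
    (∀ (n : ℕ) (x y : Fin n → Bool), x ≤ y → List.ofFn x ∈ L → List.ofFn y ∈ L) ∧
    ∀ k : ℕ, ∃ n₀ : ℕ, ∀ n ≥ n₀, ∀ C : Circuit n, C.size ≤ n ^ k + k →
      (∀ x, C.eval x = true ↔ List.ofFn x ∈ L) → ∀ U : Finset (Fin n),
        ∃ r : ℕ, U.card ≤ (r + 1) * Nat.log 2 n ^ 6 ∧ r + 1 ≤ C.freeProd ∧
          ∃ x : ℕ → Fin n → Bool, (∀ i ≤ r, List.ofFn (x i) ∉ L) ∧ ∀ i < r, x i ≤ x (i + 1) ∧
            (∀ p ∉ U, x i p = x (i + 1) p) ∧ C.Changes (x i) (x (i + 1)) := by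
  refine ⟨SLang, inNP_slang, ?_, ?_⟩
  · intro n x y hxy hx
    refine slang_mono (by simp) (fun p hp => ?_) hx
    rw [getD_ofFn] at hp ⊢
    unfold getw at hp ⊢
    split_ifs at hp ⊢ with h
    exact Bool.le_iff_imp.1 (hxy ⟨p, h⟩) hp
  · intro k
    refine ⟨2 ^ 2 ^ (64 + 2 * (k + 2)), fun n hn C hC hL U => ?_⟩
    have h := lam_ge _ n hn
    have hn2 : 2 ≤ n := by
      have h1 : 64 ≤ lam n := by omega
      have h2 := n_ge h1
      have h3 := ell_ge' h1
      have h4 : 2 ^ 1 ≤ 2 ^ Nat.log 2 n := Nat.pow_le_pow_right (by norm_num) (by omega)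
      omega
    have hC' : C.size ≤ n ^ (k + 1) := by
      have h1 : k < 2 ^ k := Nat.lt_two_pow_self
      have h2 : 2 ^ k ≤ n ^ k := Nat.pow_le_pow_left hn2 k
      have h3 : n ^ k * 2 ≤ n ^ (k + 1) := by
        rw [pow_succ]
        exact Nat.mul_le_mul_left _ hn2
      omega
    obtain ⟨r, hr, x, hx1, hx2⟩ := local_flips (k := k + 1) (by omega) (by omega) C hC' hL U
    exact ⟨r, hr, succ_le_freeProd C r x (fun i hi => (hx2 i hi).1) (fun i hi => (hx2 i hi).2.2),
      x, hx1, hx2⟩

end Pool.Agent.Results.MP_79d702_lc.LocalFlips
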