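import Pool.Agent.H560R2.Real5
import Pool.Agent.H560R2.Real7

/-!
Circuits of monotone real gates with few non-monotone gates, for an NP-complete problem.

`HalfClique` is the language of the words `x` that code a graph on `n = ⌊√|x|⌋` vertices (for
`a < b` the pair `a, b` is an edge if the bit number `a * n + b` is one) which has a clique
containing at least half of the vertices. It is `NP`-complete.

A real circuit computes with real numbers. Its monotone gates compute arbitrary nondecreasing real
functions of at most two arguments (this is the model of Pudlák and of Haken and Cook; a weighted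
threshold gate with `w` inputs and nonnegative weights is a chain of `w` such gates). Here there may
also be arbitrary further gates, each of which sees for each of its inputs only whether this real
number is at least a threshold, for instance NOT gates.

The proof: the graphs contain many copies of the problem whether a set of points of the plane over
a finite field contains the graph of a polynomial of small degree. A chain of graphs without large
cliques is built copy by copy. If no such graph in the current copy changed the bits that enter the
further gates, then these gates could be frozen, and the frozen circuit together with the bits that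
were `0` would give a small circuit of monotone real gates for the copy, which is impossible by
Jukna's method: each gate is approximated, at all thresholds simultaneously, by a monotone chain of
CNFs and a monotone chain of DNFs with short clauses and monomials.

The bound on the number of NOT gates is sharp up to a constant factor (for fixed `d`, up to an
additive constant): every Boolean function of `N` bits has a real circuit with less than `6 N + 6`
gates and only `⌈log (N + 1)⌉` NOT gates (an observation of helper547). The circuit computes
`e = 2 ^ N (number of ones) + (the input read as a binary number)`, which is injective and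
increasing, and `C - e`: here the number of ones is turned into its negative by subtracting its
binary digits, from the top, and one NOT gate is spent for each digit. A single monotone gate
computes any function from `e` and `C - e`.
-/

namespace Pool.Agent.Results.MP_79d702_lc.RealGates

open Pool.Agent.H520R2.HC Pool.Agent.NPC

/-- A real circuit with `N` input bits and gates `0, ..., s - 1`. Gate `i` has `w i` inputs, namely
`a i j`, each an input bit (`0` or `1`) or an earlier gate, and its value on the input `x` is
`val x i`. The gates outside `T` compute nondecreasing functions of at most two real numbers. The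
output of a gate `i` in `T` depends in an arbitrary way on the bits that tell whether `θ i j` is at
most the `j`-th input. The circuit accepts if the value of gate `out` is at least `τ`. -/
structure RealCircuit (N : ℕ) where
  s : ℕ
  T : Finset (Fin s)
  w : Fin s → ℕ
  a : (i : Fin s) → Fin (w i) → Fin N ⊕ Fin s
  op : (i : Fin s) → (Fin (w i) → ℝ) → ℝ
  θ : (i : Fin s) → Fin (w i) → ℝ
  val : (Fin N → Bool) → Fin s → ℝ
  out : Fin s
  τ : ℝ
  earlier : ∀ i j k, a i j = Sum.inr k → k < i
  mono : ∀ i ∉ T, w i ≤ 2 ∧ Monotone (op i)
  free : ∀ i ∈ T, ∀ z z' : Fin (w i) → ℝ, (∀ j, θ i j ≤ z j ↔ θ i j ≤ z' j) → op i z = op i z'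
  spec : ∀ x i, val x i = op i (fun j =>
    Sum.elim (fun p => if x p = true then (1 : ℝ) else 0) (val x) (a i j))

/-- The `j`-th bit that enters the gate `i` of `T`, on the input `x`. -/
def RealCircuit.Bit {N : ℕ} (C : RealCircuit N) (x : Fin N → Bool) (i : Fin C.s)
    (j : Fin (C.w i)) : Prop :=
  C.θ i j ≤ Sum.elim (fun p => if x p = true then (1 : ℝ) else 0) (C.val x) (C.a i j)

/-- (1), (2) `HalfClique` is `NP`-complete. (3) Let `d ≥ 2`, let `N` be at least a polylogarithmic
factor times `d ^ 16` as below, and `M = ⌊N / (2 ^ 23 (⌊log d⌋ + 1) ^ 2 d ^ 4)⌋`. If a real circuit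
decides `HalfClique` on `{0,1} ^ N` and if its number of gates plus the total number of inputs of
the gates in `T` is less than `2 ^ d`, then there is a chain `x 0 ≤ x 1 ≤ ... ≤ x M` of words
outside `HalfClique` such that at each of the `M` steps some bit that enters a gate of `T` changes;
and the product of the numbers `w i + 1` over `T` is larger than `M`. (4) Every Boolean function of
`N ≥ 1` bits has a real circuit with `2 N + 3 ⌈log (N + 1)⌉ + 6` gates of which only
`⌈log (N + 1)⌉` are in `T`, each of these with one input. -/
theorem result : InNP HalfClique ∧ NPHard HalfClique ∧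
    (∀ (N d : ℕ) (C : RealCircuit N), 2 ≤ d →
      2 ^ 64 * (Nat.log 2 d + 1) ^ 8 * d ^ 16 ≤ N →
      (∀ x, C.τ ≤ C.val x C.out ↔ List.ofFn x ∈ HalfClique) →
      C.s + ∑ i ∈ C.T, C.w i < 2 ^ d →
      (∃ x : ℕ → Fin N → Bool,
        (∀ i < N / (2 ^ 23 * (Nat.log 2 d + 1) ^ 2 * d ^ 4), x i ≤ x (i + 1) ∧
          ∃ t ∈ C.T, ∃ j, ¬ (C.Bit (x i) t j ↔ C.Bit (x (i + 1)) t j)) ∧
        ∀ i ≤ N / (2 ^ 23 * (Nat.log 2 d + 1) ^ 2 * d ^ 4), List.ofFn (x i) ∉ HalfClique) ∧
      N / (2 ^ 23 * (Nat.log 2 d + 1) ^ 2 * d ^ 4) < ∏ i ∈ C.T, (C.w i + 1)) ∧
    ∀ (N : ℕ), 1 ≤ N → ∀ f : (Fin N → Bool) → Bool, ∃ C : RealCircuit N,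
      C.s = 2 * N + 3 * Nat.clog 2 (N + 1) + 6 ∧ C.T.card = Nat.clog 2 (N + 1) ∧
      (∀ i ∈ C.T, C.w i = 1) ∧ ∀ x, C.τ ≤ C.val x C.out ↔ f x = true := by
  refine ⟨inNP_halfClique, npHard_halfClique, ?_, ?_⟩
  · intro N d C hd hN ho hsize
    obtain ⟨x, hx1, hx2⟩ := Pool.Agent.H560R2.half_real (θ := C.θ) d hd hN C.earlier C.mono C.free
      C.spec C.out C.τ ho hsize
    exact ⟨⟨x, hx1, hx2⟩, Pool.Agent.H560R2.chain_leR C.earlier C.mono C.free C.spec _ x
      (fun i hi => (hx1 i hi).1) (fun i hi => (hx1 i hi).2)⟩
  · intro N hN f
    obtain ⟨g, hg, hgb, hf⟩ := Pool.Agent.H560R2.all_functions N hN f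
    obtain ⟨T, w, a, op, θ, val, out, h1, h2, h3, h4, h5, h6, h7⟩ :=
      hg.circuit (Set.mem_singleton g) hgb
    exact ⟨⟨_, T, w, a, op, θ, val, out, 3, h3, h4, h5, h6⟩, rfl, h1, h2,
      fun x => by rw [← hf x, ← h7 x]⟩

end Pool.Agent.Results.MP_79d702_lc.RealGates
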